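import Pool.Agent.H65.UB.Wnn

/-!
# ROB (MP_8f2e1c), THEOREM GEO (think 1848), step 1: LEMMA W

`nn h ρ e` (H65/UB/Wnn) is `2 π i` times the winding number of the curve `h (‖u‖ = ρ)` around `e`.
`lemW`: `h` holomorphic and injective without zeros on the annulus `θ < ‖u‖ < 1`, `n` the winding number around `0`: then
`n ∈ {-1, 0, 1}`; if `n = 1`, the winding number around `h a` is `1` for `‖a‖ < ρ`, `0` for `‖a‖ > ρ`.
PROOF. `i`, `o` the two constant values (`nn_con`), `i - o = 2 π i` (`nn_jump`). A point of maximal modulus on a closed annulus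
around the circle: `i = 0` or `o = 0` (`nn_far`). The disc `‖w‖ < min ‖h‖` on the circle is off the curve and meets the image of the
annulus: the value at `0` is `i` or `o`.
-/

set_option autoImplicit false

open Filter Topology Metric Set

namespace Pool.Agent.H69.WN

open Pool.Agent.H65.UB

theorem ann_pre {r R : ℝ} (hr : 0 < r) : IsPreconnected {u : ℂ | r < ‖u‖ ∧ ‖u‖ < R} := by
  rcases le_or_gt R 0 with hR | hR
  · have : {u : ℂ | r < ‖u‖ ∧ ‖u‖ < R} = ∅ := by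
      ext u
      simp only [mem_setOf_eq, mem_empty_iff_false, iff_false, not_and, not_lt]
      intro _
      exact hR.trans (norm_nonneg u)
    rw [this]
    exact isPreconnected_empty
  have h1 : Convex ℝ {z : ℂ | Real.log r < z.re ∧ z.re < Real.log R} :=
    (convex_Ioo (Real.log r) (Real.log R)).linear_preimage Complex.reCLM.toLinearMap
  have h2 : {u : ℂ | r < ‖u‖ ∧ ‖u‖ < R} = Complex.exp '' {z : ℂ | Real.log r < z.re ∧ z.re < Real.log R} := by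
    ext w
    constructor
    · rintro ⟨h4, h5⟩
      have hw : w ≠ 0 := norm_pos_iff.1 (hr.trans h4)
      refine ⟨Complex.log w, ⟨?_, ?_⟩, Complex.exp_log hw⟩
      · rw [Complex.log_re]
        exact Real.log_lt_log hr h4
      · rw [Complex.log_re]
        exact Real.log_lt_log (norm_pos_iff.2 hw) h5
    · rintro ⟨z, ⟨h4, h5⟩, rfl⟩
      rw [mem_setOf_eq, Complex.norm_exp]
      exact ⟨(Real.log_lt_iff_lt_exp hr).1 h4, (Real.lt_log_iff_exp_lt hR).1 h5⟩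
  rw [h2]
  exact h1.isPreconnected.image _ Complex.continuous_exp.continuousOn

theorem ann_open (θ : ℝ) : IsOpen {u : ℂ | θ < ‖u‖ ∧ ‖u‖ < 1} :=
  (isOpen_lt continuous_const continuous_norm).inter (isOpen_lt continuous_norm continuous_const)

/-- an injective function is not locally constant -/
theorem not_const {h : ℂ → ℂ} {A : Set ℂ} (hA : IsOpen A) (hi : InjOn h A) {a : ℂ} (ha : a ∈ A)
    (hc : ∀ᶠ y in 𝓝 a, h y = h a) : False := by
  obtain ⟨r, hr, hb⟩ := Metric.eventually_nhds_iff_ball.1 (hc.and (hA.mem_nhds ha))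
  have h1 : a + ((r / 2 : ℝ) : ℂ) ∈ ball a r := by
    rw [mem_ball, dist_eq_norm, add_sub_cancel_left, Complex.norm_real, Real.norm_eq_abs,
      abs_of_pos (by positivity)]
    linarith
  have h2 := hb _ h1
  have h4 := hi h2.2 ha h2.1
  have h5 : ((r / 2 : ℝ) : ℂ) = 0 := by linear_combination h4
  have h6 : (r / 2 : ℝ) = 0 := by exact_mod_cast h5
  linarith

/-- the two values of the winding number of an injective annulus -/
theorem nn_io {h : ℂ → ℂ} {θ : ℝ} (hθ : 0 < θ) (hd : DifferentiableOn ℂ h {u | θ < ‖u‖ ∧ ‖u‖ < 1})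
    (hi : InjOn h {u | θ < ‖u‖ ∧ ‖u‖ < 1}) {ρ : ℝ} (h1 : θ < ρ) (h2 : ρ < 1) :
    ∃ i o : ℂ, i - o = 2 * Real.pi * Complex.I ∧ (i = 0 ∨ o = 0) ∧
      (∀ a : ℂ, θ < ‖a‖ → ‖a‖ < ρ → nn h ρ (h a) = i) ∧ ∀ a : ℂ, ρ < ‖a‖ → ‖a‖ < 1 → nn h ρ (h a) = o := by
  have hA := ann_open θ
  have hρ0 : 0 < ρ := hθ.trans h1
  have han : ∀ u ∈ sphere (0 : ℂ) ρ, AnalyticAt ℂ h u := by
    intro u hu
    rw [mem_sphere_zero_iff_norm] at hu
    exact hd.analyticAt (hA.mem_nhds ⟨by rw [hu]; exact h1, by rw [hu]; exact h2⟩)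
  have hcs : ∀ u ∈ sphere (0 : ℂ) ρ, u ∈ {u : ℂ | θ < ‖u‖ ∧ ‖u‖ < 1} := by
    intro u hu
    rw [mem_sphere_zero_iff_norm] at hu
    exact ⟨by rw [hu]; exact h1, by rw [hu]; exact h2⟩
  obtain ⟨r, hr1, hr2⟩ := exists_between h1
  obtain ⟨R, hR1, hR2⟩ := exists_between h2
  have hnr : ‖((r : ℝ) : ℂ)‖ = r := by
    rw [Complex.norm_real, Real.norm_eq_abs, abs_of_pos (hθ.trans hr1)]
  have hnR : ‖((R : ℝ) : ℂ)‖ = R := by
    rw [Complex.norm_real, Real.norm_eq_abs, abs_of_pos (hρ0.trans hR1)]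
  have hin : ∀ a : ℂ, θ < ‖a‖ → ‖a‖ < ρ → nn h ρ (h a) = nn h ρ (h (r : ℂ)) := by
    intro a ha ha'
    refine nn_con hρ0 han (ann_pre hθ : IsPreconnected {u : ℂ | θ < ‖u‖ ∧ ‖u‖ < ρ})
      (hd.continuousOn.mono fun u hu => ⟨hu.1, hu.2.trans h2⟩) ?_ ⟨ha, ha'⟩ ⟨by rw [hnr]; exact hr1, by rw [hnr]; exact hr2⟩
    rintro w ⟨hw1, hw2⟩ u hu h0
    have h3 := hi (hcs u hu) ⟨hw1, hw2.trans h2⟩ h0
    rw [mem_sphere_zero_iff_norm] at hu
    rw [← h3, hu] at hw2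
    exact lt_irrefl _ hw2
  have hout : ∀ a : ℂ, ρ < ‖a‖ → ‖a‖ < 1 → nn h ρ (h a) = nn h ρ (h (R : ℂ)) := by
    intro a ha ha'
    refine nn_con hρ0 han (ann_pre hρ0 : IsPreconnected {u : ℂ | ρ < ‖u‖ ∧ ‖u‖ < 1})
      (hd.continuousOn.mono fun u hu => ⟨h1.trans hu.1, hu.2⟩) ?_ ⟨ha, ha'⟩ ⟨by rw [hnR]; exact hR1, by rw [hnR]; exact hR2⟩
    rintro w ⟨hw1, hw2⟩ u hu h0
    have h3 := hi (hcs u hu) ⟨h1.trans hw1, hw2⟩ h0
    rw [mem_sphere_zero_iff_norm] at hu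
    rw [← h3, hu] at hw1
    exact lt_irrefl _ hw1
  refine ⟨nn h ρ (h (r : ℂ)), nn h ρ (h (R : ℂ)), ?_, ?_, hin, hout⟩
  · exact nn_jump hθ hd hi (by rw [hnr]; exact hr1) (by rw [hnr]; exact hr2) (by rw [hnR]; exact hR1)
      (by rw [hnR]; exact hR2)
  · -- maximal modulus
    have hKc : IsCompact {u : ℂ | r ≤ ‖u‖ ∧ ‖u‖ ≤ R} := by
      have h3 : {u : ℂ | r ≤ ‖u‖ ∧ ‖u‖ ≤ R} = closedBall 0 R ∩ {u : ℂ | r ≤ ‖u‖} := by
        ext u
        simp only [mem_setOf_eq, mem_inter_iff, mem_closedBall_zero_iff]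
        tauto
      rw [h3]
      exact (isCompact_closedBall _ _).inter_right (isClosed_le continuous_const continuous_norm)
    have hKA : {u : ℂ | r ≤ ‖u‖ ∧ ‖u‖ ≤ R} ⊆ {u : ℂ | θ < ‖u‖ ∧ ‖u‖ < 1} := fun u hu =>
      ⟨hr1.trans_le hu.1, hu.2.trans_lt hR2⟩
    obtain ⟨y, hy, hmax⟩ := hKc.exists_isMaxOn ⟨(r : ℂ), by rw [mem_setOf_eq, hnr]; exact ⟨le_rfl, by linarith⟩⟩
      ((hd.continuousOn.mono hKA).norm)
    have hlt : ∀ u ∈ sphere (0 : ℂ) ρ, ‖h u‖ < ‖h y‖ := by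
      intro u hu
      have hu' := hu
      rw [mem_sphere_zero_iff_norm] at hu'
      have huK : u ∈ {u : ℂ | r ≤ ‖u‖ ∧ ‖u‖ ≤ R} := ⟨by rw [hu']; exact hr2.le, by rw [hu']; exact hR1.le⟩
      refine lt_of_le_of_ne (hmax huK) fun heq => ?_
      have hO : IsOpen {u : ℂ | r < ‖u‖ ∧ ‖u‖ < R} :=
        (isOpen_lt continuous_const continuous_norm).inter (isOpen_lt continuous_norm continuous_const)
      have hloc : IsLocalMax (norm ∘ h) u := by
        filter_upwards [hO.mem_nhds (show u ∈ {u : ℂ | r < ‖u‖ ∧ ‖u‖ < R} from ⟨by rw [hu']; exact hr2,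
          by rw [hu']; exact hR1⟩)] with v hv
        show ‖h v‖ ≤ ‖h u‖
        rw [heq]
        exact hmax (show v ∈ {u : ℂ | r ≤ ‖u‖ ∧ ‖u‖ ≤ R} from ⟨hv.1.le, hv.2.le⟩)
      have hdd : ∀ᶠ z in 𝓝 u, DifferentiableAt ℂ h z := by
        filter_upwards [hA.mem_nhds (hcs u hu)] with v hv
        exact hd.differentiableAt (hA.mem_nhds hv)
      exact not_const hA hi (hcs u hu) (Complex.eventually_eq_of_isLocalMax_norm hdd hloc)
    have hfar := nn_far hρ0 han hlt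
    have hyρ : ‖y‖ ≠ ρ := fun h0 => lt_irrefl _ (hlt y (mem_sphere_zero_iff_norm.2 h0))
    rcases lt_or_gt_of_ne hyρ with hlt' | hgt
    · left
      rw [← hin y (hKA hy).1 hlt']
      exact hfar
    · right
      rw [← hout y hgt (hKA hy).2]
      exact hfar

/-- the disc in the middle: constant winding number -/
theorem nn_mid {h : ℂ → ℂ} {ρ m : ℝ} (hρ : 0 < ρ) (hh : ∀ u ∈ sphere (0 : ℂ) ρ, AnalyticAt ℂ h u)
    (hm : ∀ u ∈ sphere (0 : ℂ) ρ, m ≤ ‖h u‖) {w : ℂ} (hw : ‖w‖ < m) : nn h ρ w = nn h ρ 0 := by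
  refine nn_con (A := ball (0 : ℂ) m) (E := id) hρ hh (convex_ball _ _).isPreconnected continuousOn_id ?_
    (mem_ball_zero_iff.2 hw) (mem_ball_self ((norm_nonneg w).trans_lt hw))
  intro v hv u hu h0
  rw [mem_ball_zero_iff] at hv
  have h1 := hm u hu
  rw [h0] at h1
  exact absurd hv (not_lt.2 h1)

/-- **Lemma W**: the winding number of an injective annulus without zeros around `0` -/
theorem lemW {h : ℂ → ℂ} {θ : ℝ} (hθ : 0 < θ) (hd : DifferentiableOn ℂ h {u | θ < ‖u‖ ∧ ‖u‖ < 1})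
    (hi : InjOn h {u | θ < ‖u‖ ∧ ‖u‖ < 1}) {ρ : ℝ} (h1 : θ < ρ) (h2 : ρ < 1)
    (h0 : ∀ u ∈ sphere (0 : ℂ) ρ, h u ≠ 0) {n : ℤ} (hn : nn h ρ 0 = 2 * Real.pi * Complex.I * n) :
    (n = -1 ∨ n = 0 ∨ n = 1) ∧ (n = 1 → (∀ a : ℂ, θ < ‖a‖ → ‖a‖ < ρ → nn h ρ (h a) = 2 * Real.pi * Complex.I) ∧
      ∀ a : ℂ, ρ < ‖a‖ → ‖a‖ < 1 → nn h ρ (h a) = 0) := by
  obtain ⟨i, o, hio, hz, hin, hout⟩ := nn_io hθ hd hi h1 h2
  have hA := ann_open θ
  have hρ0 : 0 < ρ := hθ.trans h1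
  have hcs : ∀ u ∈ sphere (0 : ℂ) ρ, u ∈ {u : ℂ | θ < ‖u‖ ∧ ‖u‖ < 1} := by
    intro u hu
    rw [mem_sphere_zero_iff_norm] at hu
    exact ⟨by rw [hu]; exact h1, by rw [hu]; exact h2⟩
  have han : ∀ u ∈ sphere (0 : ℂ) ρ, AnalyticAt ℂ h u := fun u hu => hd.analyticAt (hA.mem_nhds (hcs u hu))
  obtain ⟨y, hy, hmin⟩ := (isCompact_sphere (0 : ℂ) ρ).exists_isMinOn (NormedSpace.sphere_nonempty.2 hρ0.le)
    ((hd.continuousOn.mono hcs).norm)
  have hpos : 0 < ‖h y‖ := norm_pos_iff.2 (h0 y hy)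
  -- a point of the annulus with a small value
  obtain ⟨a, haA, ha⟩ : ∃ a ∈ {u : ℂ | θ < ‖u‖ ∧ ‖u‖ < 1}, ‖h a‖ < ‖h y‖ := by
    rcases (han y hy).eventually_constant_or_nhds_le_map_nhds with hc | hc
    · exact (not_const hA hi (hcs y hy) hc).elim
    · have h3 : h '' {u : ℂ | θ < ‖u‖ ∧ ‖u‖ < 1} ∈ 𝓝 (h y) := hc (image_mem_map (hA.mem_nhds (hcs y hy)))
      have h4 : h y ∈ closure (ball (0 : ℂ) ‖h y‖) := by
        rw [closure_ball _ hpos.ne']
        exact mem_closedBall_zero_iff.2 le_rfl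
      obtain ⟨w, hw1, hw2⟩ := mem_closure_iff_nhds.1 h4 _ h3
      obtain ⟨a, haA, rfl⟩ := hw1
      exact ⟨a, haA, mem_ball_zero_iff.1 hw2⟩
  have hmid : nn h ρ (h a) = nn h ρ 0 := nn_mid hρ0 han (fun u hu => hmin hu) ha
  have haρ : ‖a‖ ≠ ρ := fun h3 => absurd (hmin (mem_sphere_zero_iff_norm.2 h3)) (not_le.2 ha)
  have hval : 2 * Real.pi * Complex.I * (n : ℂ) = i ∨ 2 * Real.pi * Complex.I * (n : ℂ) = o := by
    rcases lt_or_gt_of_ne haρ with hlt | hgt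
    · left
      rw [← hn, ← hmid, hin a haA.1 hlt]
    · right
      rw [← hn, ← hmid, hout a hgt haA.2]
  have hpi : (2 * Real.pi * Complex.I : ℂ) ≠ 0 := Complex.two_pi_I_ne_zero
  have hcast : ∀ m : ℤ, 2 * Real.pi * Complex.I * (n : ℂ) = 2 * Real.pi * Complex.I * (m : ℂ) → n = m := by
    intro m hm
    have := mul_left_cancel₀ hpi hm
    exact_mod_cast this
  rcases hz with hi0 | ho0
  · have ho : o = - (2 * Real.pi * Complex.I) := by
      rw [hi0] at hio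
      linear_combination -hio
    rcases hval with hv | hv
    · have hn0 : n = 0 := hcast 0 (by rw [hv, hi0]; simp)
      exact ⟨Or.inr (Or.inl hn0), fun h3 => absurd h3 (by rw [hn0]; decide)⟩
    · have hn0 : n = -1 := hcast (-1) (by rw [hv, ho]; push_cast; ring)
      exact ⟨Or.inl hn0, fun h3 => absurd h3 (by rw [hn0]; decide)⟩
  · have hi' : i = 2 * Real.pi * Complex.I := by
      rw [ho0] at hio
      linear_combination hio
    rcases hval with hv | hv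
    · have hn0 : n = 1 := hcast 1 (by rw [hv, hi']; push_cast; ring)
      refine ⟨Or.inr (Or.inr hn0), fun _ => ⟨fun b hb hb' => ?_, fun b hb hb' => ?_⟩⟩
      · rw [hin b hb hb', hi']
      · rw [hout b hb hb', ho0]
    · have hn0 : n = 0 := hcast 0 (by rw [hv, ho0]; simp)
      exact ⟨Or.inr (Or.inl hn0), fun h3 => absurd h3 (by rw [hn0]; decide)⟩

end Pool.Agent.H69.WN
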